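import Mathlib

/-!
# The boundedness locus of the family `r_{n,a}` lies near its spine (MP_9ed304_an, Q1)

For every `ε > 0` and all large `n` the boundedness locus `M_n` lies in the `ε`-neighbourhood of
the spine `S_n` and in the `ε`-neighbourhood of the limiting cardioid `S_∞`.
-/

set_option autoImplicit false

open Complex Metric

namespace Pool.Agent.Results.MP_9ed304_an.NearSpine

/-- The root `|a|^{1/2n} e^{iψ/2n}`, where `ψ` is the principal argument of `a`. -/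
noncomputable def root (n : ℕ) (a : ℂ) : ℂ :=
  ((‖a‖ ^ (1 / (2 * (n : ℝ))) : ℝ) : ℂ) * exp (((arg a / (2 * (n : ℝ)) : ℝ) : ℂ) * I)

/-- The principal square root of `a`. -/
noncomputable def sqrtC (a : ℂ) : ℂ :=
  ((Real.sqrt ‖a‖ : ℝ) : ℂ) * exp (((arg a / 2 : ℝ) : ℂ) * I)

/-- The parameter `b = b_{n,0}(a)`. -/
noncomputable def b (n : ℕ) (a : ℂ) : ℂ := root n a - 2 * sqrtC a

/-- The map `r_{n,a}` (used only at points `z ≠ 0`; the point `z = 0` is a pole). -/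
noncomputable def r (n : ℕ) (a z : ℂ) : ℂ := z ^ n + a / z ^ n + b n a

/-- The free critical value `v_- = b - 2 √a`. -/
noncomputable def vMinus (n : ℕ) (a : ℂ) : ℂ := b n a - 2 * sqrtC a

/-- The boundedness locus: the parameters `a ≠ 0` for which the forward orbit of `v_-` under
`r_{n,a}` never meets the pole `0` (so that it stays in the plane) and is bounded. -/
def boundednessLocus (n : ℕ) : Set ℂ :=
  {a | a ≠ 0 ∧ (∀ k : ℕ, (r n a)^[k] (vMinus n a) ≠ 0) ∧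
    ∃ R : ℝ, ∀ k : ℕ, ‖(r n a)^[k] (vMinus n a)‖ ≤ R}

/-- The spine `S_n`. -/
def spine (n : ℕ) : Set ℂ :=
  {a | a ≠ 0 ∧ ∃ θ ∈ Set.Icc (0 : ℝ) (2 * Real.pi),
    a = 1 / 16 * (root n a + exp ((θ : ℂ) * I)) ^ 2}

/-- The limiting cardioid `S_∞`. -/
def cardioid : Set ℂ :=
  {a | ∃ θ ∈ Set.Icc (0 : ℝ) (2 * Real.pi), a = 1 / 16 * (1 + exp ((θ : ℂ) * I)) ^ 2}

/-! ### Roots in logarithmic coordinates -/

theorem root_exp {n : ℕ} {w : ℂ} (h1 : -Real.pi < w.im) (h2 : w.im ≤ Real.pi) :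
    root n (exp w) = exp (w / (2 * n)) := by
  have harg : arg (exp w) = w.im := by
    rw [arg_exp]
    exact (toIocMod_eq_self Real.two_pi_pos).2 ⟨h1, by linarith⟩
  have hre : w = ((w.re : ℝ) : ℂ) + ((w.im : ℝ) : ℂ) * I := (re_add_im w).symm
  rw [root, harg, norm_exp, ← Real.exp_mul, ofReal_exp, ← exp_add]
  congr 1
  conv_rhs => rw [hre]
  push_cast
  ring

theorem sqrtC_exp {w : ℂ} (h1 : -Real.pi < w.im) (h2 : w.im ≤ Real.pi) :
    sqrtC (exp w) = exp (w / 2) := by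
  have harg : arg (exp w) = w.im := by
    rw [arg_exp]
    exact (toIocMod_eq_self Real.two_pi_pos).2 ⟨h1, by linarith⟩
  have hre : w = ((w.re : ℝ) : ℂ) + ((w.im : ℝ) : ℂ) * I := (re_add_im w).symm
  have hs : Real.sqrt (Real.exp w.re) = Real.exp (w.re / 2) := by
    rw [Real.sqrt_eq_iff_mul_self_eq (Real.exp_pos _).le (Real.exp_pos _).le, ← Real.exp_add]
    congr 1
    ring
  rw [sqrtC, harg, norm_exp, hs, ofReal_exp, ← exp_add]
  congr 1
  conv_rhs => rw [hre]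
  push_cast
  ring

theorem sqrtC_sq (a : ℂ) : sqrtC a ^ 2 = a := by
  by_cases ha : a = 0
  · simp [sqrtC, ha]
  · have h := sqrtC_exp (w := log a) (neg_pi_lt_log_im a) (log_im_le_pi a)
    rw [exp_log ha] at h
    rw [h, ← exp_nat_mul]
    rw [show ((2 : ℕ) : ℂ) * (log a / 2) = log a by push_cast; ring, exp_log ha]

theorem norm_sqrtC (a : ℂ) : ‖sqrtC a‖ = Real.sqrt ‖a‖ := by
  rw [← Real.sqrt_sq (norm_nonneg (sqrtC a)), ← norm_pow, sqrtC_sq]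

theorem norm_root (n : ℕ) (a : ℂ) : ‖root n a‖ = ‖a‖ ^ (1 / (2 * (n : ℝ))) := by
  rw [root, norm_mul, norm_exp_ofReal_mul_I, mul_one, norm_real, Real.norm_eq_abs,
    abs_of_nonneg (Real.rpow_nonneg (norm_nonneg _) _)]

theorem norm_root_le_one {n : ℕ} {a : ℂ} (ha : ‖a‖ ≤ 1) : ‖root n a‖ ≤ 1 := by
  rw [norm_root]
  exact Real.rpow_le_one (norm_nonneg _) ha (by positivity)

/-- For `|a|` between `η` and `1` the root `a^{1/2n}` tends to `1` uniformly. -/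
theorem root_sub_one {n : ℕ} {a : ℂ} {η : ℝ} (hη : 0 < η) (ha : η ≤ ‖a‖) (ha1 : ‖a‖ ≤ 1)
    (hn : -Real.log η + Real.pi ≤ n) (hn0 : 0 < n) :
    ‖root n a - 1‖ ≤ (-Real.log η + Real.pi) / n := by
  have ha0 : a ≠ 0 := norm_pos_iff.1 (hη.trans_le ha)
  have hn' : (0 : ℝ) < n := by exact_mod_cast hn0
  have h := root_exp (n := n) (w := log a) (neg_pi_lt_log_im a) (log_im_le_pi a)
  rw [exp_log ha0] at h
  have hlog : ‖log a‖ ≤ -Real.log η + Real.pi := by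
    calc ‖log a‖ ≤ |(log a).re| + |(log a).im| := norm_le_abs_re_add_abs_im _
      _ ≤ -Real.log η + Real.pi := by
        rw [log_re]
        have h1 : Real.log ‖a‖ ≤ 0 := Real.log_nonpos (norm_nonneg _) ha1
        have h2 : Real.log η ≤ Real.log ‖a‖ := Real.log_le_log hη ha
        have h3 : |(log a).im| ≤ Real.pi := by
          rw [log_im]
          exact abs_arg_le_pi a
        rw [abs_of_nonpos h1]
        linarith
  have hdiv : ‖log a / (2 * n)‖ ≤ (-Real.log η + Real.pi) / (2 * n) := by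
    rw [norm_div, norm_mul, norm_natCast]
    norm_num
    gcongr
  have hle1 : ‖log a / (2 * n)‖ ≤ 1 := by
    refine hdiv.trans ?_
    rw [div_le_one (by positivity)]
    linarith
  rw [h]
  calc ‖exp (log a / (2 * n)) - 1‖ ≤ 2 * ‖log a / (2 * n)‖ := norm_exp_sub_one_le hle1
    _ ≤ 2 * ((-Real.log η + Real.pi) / (2 * n)) := by gcongr
    _ = (-Real.log η + Real.pi) / n := by field_simp

/-! ### Escape -/

theorem not_bounded {f : ℂ → ℂ} {ρ : ℝ} (hρ : 0 < ρ) (h : ∀ z, ρ ≤ ‖z‖ → 2 * ‖z‖ ≤ ‖f z‖) {z : ℂ}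
    (m : ℕ) (hz : ρ ≤ ‖f^[m] z‖) : ¬ ∃ R : ℝ, ∀ k : ℕ, ‖f^[k] z‖ ≤ R := by
  rintro ⟨R, hR⟩
  have key : ∀ k : ℕ, 2 ^ k * ρ ≤ ‖f^[k + m] z‖ := by
    intro k
    induction k with
    | zero => simpa using hz
    | succ k ih =>
      have h1 : ρ ≤ ‖f^[k + m] z‖ := by
        refine le_trans ?_ ih
        have : (1 : ℝ) ≤ 2 ^ k := one_le_pow₀ (by norm_num)
        nlinarith
      have h2 := h _ h1
      rw [show k + 1 + m = (k + m) + 1 by ring, Function.iterate_succ_apply']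
      calc (2 : ℝ) ^ (k + 1) * ρ = 2 * (2 ^ k * ρ) := by ring
        _ ≤ 2 * ‖f^[k + m] z‖ := by gcongr
        _ ≤ _ := h2
  obtain ⟨k, hk⟩ := pow_unbounded_of_one_lt (R / ρ) (by norm_num : (1 : ℝ) < 2)
  have h1 := key k
  have h2 := hR (k + m)
  have h3 : R < 2 ^ k * ρ := by rwa [div_lt_iff₀ hρ] at hk
  linarith

theorem norm_r_ge (n : ℕ) (a z : ℂ) :
    ‖z‖ ^ n - ‖a‖ / ‖z‖ ^ n - ‖b n a‖ ≤ ‖r n a z‖ := by
  have h1 : ‖z ^ n‖ ≤ ‖r n a z‖ + ‖a / z ^ n‖ + ‖b n a‖ := by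
    have : z ^ n = r n a z - a / z ^ n - b n a := by rw [r]; ring
    calc ‖z ^ n‖ = ‖r n a z - a / z ^ n - b n a‖ := by rw [← this]
      _ ≤ ‖r n a z - a / z ^ n‖ + ‖b n a‖ := norm_sub_le _ _
      _ ≤ _ := by gcongr; exact norm_sub_le _ _
  rw [norm_div, norm_pow] at h1
  linarith

theorem norm_r_ge' (n : ℕ) (a z : ℂ) :
    ‖a‖ / ‖z‖ ^ n - ‖z‖ ^ n - ‖b n a‖ ≤ ‖r n a z‖ := by
  have h1 : ‖a / z ^ n‖ ≤ ‖r n a z‖ + ‖z ^ n‖ + ‖b n a‖ := by
    have : a / z ^ n = r n a z - z ^ n - b n a := by rw [r]; ring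
    calc ‖a / z ^ n‖ = ‖r n a z - z ^ n - b n a‖ := by rw [← this]
      _ ≤ ‖r n a z - z ^ n‖ + ‖b n a‖ := norm_sub_le _ _
      _ ≤ _ := by gcongr; exact norm_sub_le _ _
  rw [norm_div, norm_pow] at h1
  linarith

/-- Parameters with `|a| ≥ 1` are not in the boundedness locus. -/
theorem not_mem_of_one_le {n : ℕ} (hn : 3 ≤ n) {a : ℂ} (ha : 1 ≤ ‖a‖) :
    a ∉ boundednessLocus n := by
  rintro ⟨-, -, hb⟩
  set A := Real.sqrt ‖a‖ with hA
  have hA1 : 1 ≤ A := Real.one_le_sqrt.2 ha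
  have hAsq : A ^ 2 = ‖a‖ := Real.sq_sqrt (norm_nonneg a)
  have hs : ‖sqrtC a‖ = A := norm_sqrtC a
  have hn' : (3 : ℝ) ≤ n := by exact_mod_cast hn
  have hu : ‖root n a‖ ≤ A := by
    rw [norm_root, hA, Real.sqrt_eq_rpow]
    apply Real.rpow_le_rpow_of_exponent_le ha
    apply one_div_le_one_div_of_le (by norm_num)
    linarith
  have hbn : ‖b n a‖ ≤ 3 * A := by
    calc ‖b n a‖ ≤ ‖root n a‖ + ‖2 * sqrtC a‖ := norm_sub_le _ _
      _ ≤ A + 2 * A := by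
        rw [norm_mul, hs]
        norm_num
        exact hu
      _ = 3 * A := by ring
  have hv : 3 * A ≤ ‖vMinus n a‖ := by
    have h4 : vMinus n a = root n a - 4 * sqrtC a := by rw [vMinus, b]; ring
    have : ‖4 * sqrtC a‖ ≤ ‖vMinus n a‖ + ‖root n a‖ := by
      rw [show 4 * sqrtC a = root n a - vMinus n a by rw [h4]; ring, add_comm]
      exact norm_sub_le _ _
    rw [norm_mul, hs] at this
    norm_num at this
    linarith
  refine not_bounded (ρ := 3 * A) (by linarith) ?_ 0 (by simpa using hv) hb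
  intro z hz
  have hz3 : 3 ≤ ‖z‖ := by linarith
  have hz0 : 0 < ‖z‖ := by linarith
  have hpow : ‖z‖ ^ 3 ≤ ‖z‖ ^ n := pow_le_pow_right₀ (by linarith) hn
  have h9 : ‖a‖ / ‖z‖ ^ n ≤ 1 := by
    rw [div_le_one (by positivity), ← hAsq]
    have : A ≤ ‖z‖ := by linarith
    calc A ^ 2 ≤ ‖z‖ ^ 2 := by gcongr
      _ ≤ ‖z‖ ^ n := pow_le_pow_right₀ (by linarith) (by omega)
  have := norm_r_ge n a z
  nlinarith [mul_self_nonneg (‖z‖ - 3), mul_nonneg (sub_nonneg.2 hz3) hz0.le]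

theorem norm_b_le {n : ℕ} {a : ℂ} (ha : ‖a‖ ≤ 1) : ‖b n a‖ ≤ 3 := by
  have hs : ‖sqrtC a‖ ≤ 1 := by
    rw [norm_sqrtC]
    exact Real.sqrt_le_one.2 ha
  calc ‖b n a‖ ≤ ‖root n a‖ + ‖2 * sqrtC a‖ := norm_sub_le _ _
    _ ≤ 1 + 2 * 1 := by
      rw [norm_mul]
      norm_num
      have := norm_root_le_one (n := n) ha
      linarith
    _ = 3 := by ring

/-- Points outside the disc of radius `1 + δ` escape if `(1 + δ)^(n - 1) ≥ 6`. -/
theorem escape_outer {n : ℕ} (hn : 1 ≤ n) {a : ℂ} (ha : ‖a‖ ≤ 1) {δ : ℝ} (hδ : 0 < δ)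
    (h6 : 6 ≤ (1 + δ) ^ (n - 1)) (z : ℂ) (hz : 1 + δ ≤ ‖z‖) : 2 * ‖z‖ ≤ ‖r n a z‖ := by
  have hz1 : 1 ≤ ‖z‖ := by linarith
  have hz0 : 0 < ‖z‖ := by linarith
  have h1 : ‖a‖ / ‖z‖ ^ n ≤ 1 := by
    rw [div_le_one (by positivity)]
    exact ha.trans (one_le_pow₀ hz1)
  have h2 : 6 * ‖z‖ ≤ ‖z‖ ^ n := by
    obtain ⟨m, rfl⟩ : ∃ m, n = m + 1 := ⟨n - 1, by omega⟩
    rw [pow_succ]
    have : 6 ≤ ‖z‖ ^ m := by
      refine h6.trans ?_
      simp only [Nat.add_sub_cancel]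
      gcongr
    gcongr
  have h3 := norm_r_ge n a z
  have h4 := norm_b_le (n := n) ha
  linarith

/-- In the boundedness locus, `|v_-|` is close to `1`. -/
theorem norm_vMinus_near {η δ : ℝ} (hη : 0 < η) (hδ : 0 < δ) (hδ1 : δ < 1) :
    ∃ N : ℕ, ∀ n ≥ N, ∀ a ∈ boundednessLocus n, η ≤ ‖a‖ →
      ‖a‖ ≤ 1 ∧ 1 - δ < ‖vMinus n a‖ ∧ ‖vMinus n a‖ < 1 + δ := by
  obtain ⟨N1, hN1⟩ := pow_unbounded_of_one_lt 6 (by linarith : 1 < 1 + δ)
  have hq : 1 < (1 - δ)⁻¹ := (one_lt_inv₀ (by linarith)).2 (by linarith)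
  obtain ⟨N2, hN2⟩ := pow_unbounded_of_one_lt (6 / η) hq
  refine ⟨N1 + N2 + 4, fun n hn a hmem ha => ?_⟩
  have ha1 : ‖a‖ ≤ 1 := by
    by_contra hcon
    exact not_mem_of_one_le (by omega) (le_of_lt (not_le.1 hcon)) hmem
  obtain ⟨ha0, hne, hb⟩ := hmem
  refine ⟨ha1, ?_, ?_⟩
  · by_contra hcon
    rw [not_lt] at hcon
    have hv0 : 0 < ‖vMinus n a‖ := norm_pos_iff.2 (by simpa using hne 0)
    have h6 : (6 : ℝ) ≤ (1 + 1) ^ (n - 1) := by
      calc (6 : ℝ) ≤ (1 + 1) ^ 3 := by norm_num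
        _ ≤ (1 + 1) ^ (n - 1) := pow_le_pow_right₀ (by norm_num) (by omega)
    refine not_bounded (ρ := 1 + 1) (by norm_num)
      (fun z hz => escape_outer (by omega) ha1 one_pos h6 z hz) 1 ?_ hb
    rw [Function.iterate_one]
    have h1 := norm_r_ge' n a (vMinus n a)
    have h2 := norm_b_le (n := n) ha1
    have h3 : ‖vMinus n a‖ ^ n ≤ 1 := pow_le_one₀ hv0.le (by linarith)
    have h4 : 6 ≤ ‖a‖ / ‖vMinus n a‖ ^ n := by
      rw [le_div_iff₀ (by positivity)]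
      have h5 : ‖vMinus n a‖ ^ n ≤ (1 - δ) ^ n := by gcongr
      have h7 : 6 / η < ((1 - δ)⁻¹) ^ n :=
        hN2.trans_le (pow_le_pow_right₀ hq.le (by omega))
      rw [inv_pow, div_lt_iff₀ hη] at h7
      have h8 : 0 < (1 - δ) ^ n := pow_pos (by linarith) n
      have h9 : 6 * (1 - δ) ^ n < η := by
        have := mul_lt_mul_of_pos_right h7 h8
        rwa [mul_comm, mul_comm _ η, mul_assoc, inv_mul_cancel₀ h8.ne', mul_one,
          mul_comm] at this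
      nlinarith
    linarith
  · by_contra hcon
    rw [not_lt] at hcon
    have h6 : (6 : ℝ) ≤ (1 + δ) ^ (n - 1) :=
      hN1.le.trans (pow_le_pow_right₀ (by linarith) (by omega))
    exact not_bounded (ρ := 1 + δ) (by linarith)
      (fun z hz => escape_outer (by omega) ha1 hδ h6 z hz) 0 (by simpa using hcon) hb

/-! ### Points of the cardioid and of the spine -/

theorem exists_angle {u : ℂ} (hu : ‖u‖ = 1) :
    ∃ θ ∈ Set.Icc (0 : ℝ) (2 * Real.pi), exp ((θ : ℂ) * I) = u := by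
  have h : exp ((arg u : ℂ) * I) = u := by
    have := norm_mul_exp_arg_mul_I u
    rwa [hu, ofReal_one, one_mul] at this
  rcases le_or_gt 0 (arg u) with h0 | h0
  · exact ⟨arg u, ⟨h0, (arg_le_pi u).trans (by linarith [Real.pi_pos])⟩, h⟩
  · refine ⟨arg u + 2 * Real.pi, ⟨by linarith [neg_pi_lt_arg u, Real.pi_pos], by linarith⟩, ?_⟩
    push_cast
    rw [add_mul, exp_add, h, exp_two_pi_mul_I, mul_one]

theorem exists_angle' {u : ℂ} (hu : ‖u‖ = 1) :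
    ∃ ψ : ℝ, -Real.pi < ψ ∧ ψ ≤ Real.pi ∧ exp ((ψ : ℂ) * I) = u := by
  refine ⟨arg u, neg_pi_lt_arg u, arg_le_pi u, ?_⟩
  have := norm_mul_exp_arg_mul_I u
  rwa [hu, ofReal_one, one_mul] at this

/-- `1 + e^{iψ} = 2 cos(ψ/2) e^{iψ/2}`. -/
theorem one_add_exp (ψ : ℝ) :
    1 + exp ((ψ : ℂ) * I) = 2 * (Real.cos (ψ / 2) : ℂ) * exp (((ψ / 2 : ℝ) : ℂ) * I) := by
  have h1 : (2 : ℂ) * (Real.cos (ψ / 2) : ℂ) =
      exp (((ψ / 2 : ℝ) : ℂ) * I) + exp (-(((ψ / 2 : ℝ) : ℂ) * I)) := by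
    rw [ofReal_cos, Complex.cos]
    ring_nf
  rw [h1, add_mul, ← exp_add, ← exp_add, neg_add_cancel, exp_zero, add_comm]
  congr 2
  push_cast
  ring

/-- The point of the `ψ`-ray of modulus `t²` lies in the spine when `|v_-| = 1`. -/
theorem mem_spine {n : ℕ} {w : ℂ} (h1 : -Real.pi < w.im) (h2 : w.im ≤ Real.pi)
    (h : ‖exp (w / (2 * n)) - 4 * exp (w / 2)‖ = 1) : exp w ∈ spine n := by
  refine ⟨exp_ne_zero _, ?_⟩
  obtain ⟨θ, hθ, he⟩ := exists_angle (u := -(exp (w / (2 * n)) - 4 * exp (w / 2)))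
    (by rw [norm_neg]; exact h)
  refine ⟨θ, hθ, ?_⟩
  rw [he, root_exp h1 h2]
  have : exp w = exp (w / 2) ^ 2 := by
    rw [← exp_nat_mul]
    congr 1
    push_cast
    ring
  rw [this]
  ring

theorem normSq_one_sub (t ψ : ℝ) :
    ‖1 - 4 * ((t : ℂ) * exp (((ψ / 2 : ℝ) : ℂ) * I))‖ ^ 2 =
      1 + 16 * t * (t - Real.cos (ψ / 2) / 2) := by
  have hre := exp_ofReal_mul_I_re (ψ / 2)
  have him := exp_ofReal_mul_I_im (ψ / 2)
  generalize exp (((ψ / 2 : ℝ) : ℂ) * I) = e at hre him ⊢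
  have h := Real.sin_sq_add_cos_sq (ψ / 2)
  rw [← hre, ← him] at h
  rw [← hre, ← normSq_eq_norm_sq, normSq_apply]
  have h1 : (1 - 4 * ((t : ℂ) * e)).re = 1 - 4 * (t * e.re) := by simp
  have h2 : (1 - 4 * ((t : ℂ) * e)).im = -(4 * (t * e.im)) := by simp
  rw [h1, h2]
  linear_combination 16 * t ^ 2 * h

/-- The spine passes close to every point `t₀² e^{iψ}` of the cardioid with `t₀ ≥ 2 κ`. -/
theorem spine_near {κ : ℝ} (hκ : 0 < κ) (hκ1 : κ ≤ 1 / 8) :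
    ∃ N : ℕ, ∀ n ≥ N, ∀ ψ : ℝ, -Real.pi < ψ → ψ ≤ Real.pi → 2 * κ ≤ Real.cos (ψ / 2) / 2 →
      ∃ t : ℝ, Real.cos (ψ / 2) / 2 - κ ≤ t ∧ t ≤ Real.cos (ψ / 2) / 2 + κ ∧
        ((t ^ 2 : ℝ) : ℂ) * exp ((ψ : ℂ) * I) ∈ spine n := by
  set C := -Real.log (κ ^ 2) + Real.pi with hC
  obtain ⟨N, hN⟩ := exists_nat_gt (C + C / κ ^ 2)
  have hCpos : 0 < C := by
    have : Real.log (κ ^ 2) ≤ 0 := Real.log_nonpos (by positivity) (by nlinarith)
    linarith [Real.pi_pos]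
  refine ⟨N, fun n hn ψ hψ1 hψ2 hψ => ?_⟩
  set t₀ := Real.cos (ψ / 2) / 2 with ht₀
  have ht₀1 : t₀ ≤ 1 / 2 := by
    have := Real.cos_le_one (ψ / 2)
    linarith
  have hnN : (N : ℝ) ≤ n := by exact_mod_cast hn
  have hCκ : 0 < C / κ ^ 2 := by positivity
  have hn1 : C ≤ n := by linarith
  have hn0 : 0 < n := by
    have : (0 : ℝ) < n := by linarith
    exact_mod_cast this
  have hn0' : (0 : ℝ) < n := by exact_mod_cast hn0
  have hn2 : C / n ≤ κ ^ 2 := by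
    rw [div_le_iff₀ hn0']
    have : C / κ ^ 2 ≤ n := by linarith
    rwa [div_le_iff₀ (by positivity), mul_comm] at this
  -- logarithmic coordinate
  let W : ℝ → ℂ := fun x => (x : ℂ) + (ψ : ℂ) * I
  have hWim : ∀ x, (W x).im = ψ := fun x => by simp [W]
  let V : ℝ → ℂ := fun x => exp (W x / (2 * n)) - 4 * exp (W x / 2)
  have hVcont : Continuous fun x => ‖V x‖ := by
    have : Continuous W := by fun_prop
    fun_prop
  have hhalf : ∀ t : ℝ, 0 < t → exp (W (2 * Real.log t) / 2) =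
      (t : ℂ) * exp (((ψ / 2 : ℝ) : ℂ) * I) := by
    intro t ht
    have : W (2 * Real.log t) / 2 = ((Real.log t : ℝ) : ℂ) + ((ψ / 2 : ℝ) : ℂ) * I := by
      simp only [W]
      push_cast
      ring
    rw [this, exp_add, ← ofReal_exp, Real.exp_log ht]
  have hfull : ∀ t : ℝ, 0 < t → exp (W (2 * Real.log t)) =
      ((t ^ 2 : ℝ) : ℂ) * exp ((ψ : ℂ) * I) := by
    intro t ht
    simp only [W]
    rw [exp_add, ← ofReal_exp, two_mul, Real.exp_add, Real.exp_log ht, sq]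
  have hest : ∀ t : ℝ, κ ≤ t → t ≤ 1 →
      |‖V (2 * Real.log t)‖ - ‖1 - 4 * ((t : ℂ) * exp (((ψ / 2 : ℝ) : ℂ) * I))‖| ≤ κ ^ 2 := by
    intro t ht ht1
    have ht0 : 0 < t := hκ.trans_le ht
    have hnorm : ‖exp (W (2 * Real.log t))‖ = t ^ 2 := by
      rw [hfull t ht0, norm_mul, norm_exp_ofReal_mul_I, mul_one, norm_real, Real.norm_eq_abs,
        abs_of_nonneg (by positivity)]
    have h1 := root_sub_one (n := n) (a := exp (W (2 * Real.log t))) (η := κ ^ 2) (by positivity)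
      (by rw [hnorm]; gcongr) (by rw [hnorm]; exact pow_le_one₀ ht0.le ht1) hn1 hn0
    rw [root_exp (by rw [hWim]; exact hψ1) (by rw [hWim]; exact hψ2)] at h1
    calc |‖V (2 * Real.log t)‖ - ‖1 - 4 * ((t : ℂ) * exp (((ψ / 2 : ℝ) : ℂ) * I))‖|
        ≤ ‖V (2 * Real.log t) - (1 - 4 * ((t : ℂ) * exp (((ψ / 2 : ℝ) : ℂ) * I)))‖ :=
          abs_norm_sub_norm_le _ _
      _ = ‖exp (W (2 * Real.log t) / (2 * n)) - 1‖ := by
          rw [← hhalf t ht0]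
          simp only [V]
          congr 1
          ring
      _ ≤ C / n := h1
      _ ≤ κ ^ 2 := hn2
  -- sign change
  have hhi : 1 ≤ ‖V (2 * Real.log (t₀ + κ))‖ := by
    have h1 := hest (t₀ + κ) (by linarith) (by linarith)
    have h2 := normSq_one_sub (t₀ + κ) ψ
    rw [← ht₀] at h2
    have h3 : 1 + κ ^ 2 ≤ ‖1 - 4 * (((t₀ + κ : ℝ) : ℂ) * exp (((ψ / 2 : ℝ) : ℂ) * I))‖ := by
      apply le_of_sq_le_sq _ (norm_nonneg _)
      rw [h2]
      have h5 : 2 * κ * κ ≤ t₀ * κ := by gcongr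
      have h6 : κ ^ 2 ≤ 1 := by nlinarith
      nlinarith [mul_pos hκ hκ, mul_nonneg (sq_nonneg κ) (sub_nonneg.2 h6)]
    have h4 := abs_le.1 h1
    linarith [h4.1]
  have hlo : ‖V (2 * Real.log (t₀ - κ))‖ ≤ 1 := by
    have h1 := hest (t₀ - κ) (by linarith) (by linarith)
    have h2 := normSq_one_sub (t₀ - κ) ψ
    rw [← ht₀] at h2
    have h3 : ‖1 - 4 * (((t₀ - κ : ℝ) : ℂ) * exp (((ψ / 2 : ℝ) : ℂ) * I))‖ ≤ 1 - κ ^ 2 := by
      apply le_of_sq_le_sq _ (by nlinarith)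
      rw [h2]
      have h5 : 2 * κ * κ ≤ t₀ * κ := by gcongr
      nlinarith [mul_pos hκ hκ, mul_nonneg (sq_nonneg κ) (sq_nonneg κ)]
    have h4 := abs_le.1 h1
    linarith [h4.2]
  have hlog : 2 * Real.log (t₀ - κ) ≤ 2 * Real.log (t₀ + κ) := by
    have := Real.log_le_log (by linarith : 0 < t₀ - κ) (by linarith : t₀ - κ ≤ t₀ + κ)
    linarith
  obtain ⟨x, ⟨hx1, hx2⟩, hx⟩ := intermediate_value_Icc hlog hVcont.continuousOn ⟨hlo, hhi⟩
  simp only at hx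
  set t := Real.exp (x / 2) with ht
  have htpos : 0 < t := Real.exp_pos _
  have hxt : 2 * Real.log t = x := by rw [ht, Real.log_exp]; ring
  refine ⟨t, ?_, ?_, ?_⟩
  · rw [← Real.exp_log (by linarith : 0 < t₀ - κ), ht]
    exact Real.exp_le_exp.2 (by linarith)
  · rw [← Real.exp_log (by linarith : 0 < t₀ + κ), ht]
    exact Real.exp_le_exp.2 (by linarith)
  · rw [← hfull t htpos, hxt]
    exact mem_spine (by rw [hWim]; exact hψ1) (by rw [hWim]; exact hψ2) hx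

/-- Points `a` with `1 - 4 √a` of modulus close to `1` are close to a point `t₀² e^{iψ}` of the
cardioid, `t₀ = cos (ψ / 2) / 2`. -/
theorem near_cardioid {a : ℂ} (ha1 : ‖a‖ ≤ 1) {δ : ℝ} (hδ1 : δ ≤ 1 / 2)
    (h1 : |‖1 - 4 * sqrtC a‖ - 1| ≤ δ) :
    ∃ ψ : ℝ, -Real.pi < ψ ∧ ψ ≤ Real.pi ∧
      ‖a - (((Real.cos (ψ / 2) / 2) ^ 2 : ℝ) : ℂ) * exp ((ψ : ℂ) * I)‖ ≤ δ := by
  set w := 4 * sqrtC a - 1 with hw
  have hnw : ‖w‖ = ‖1 - 4 * sqrtC a‖ := by rw [hw, ← norm_neg]; congr 1; ring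
  rw [← hnw] at h1
  have hw0 : 0 < ‖w‖ := by
    have := (abs_le.1 h1).1
    linarith
  obtain ⟨ψ, hψ1, hψ2, he⟩ := exists_angle' (u := w / ‖w‖) (by
    rw [norm_div, norm_real, norm_norm, div_self hw0.ne'])
  refine ⟨ψ, hψ1, hψ2, ?_⟩
  have hs' : (((Real.cos (ψ / 2) / 2) ^ 2 : ℝ) : ℂ) * exp ((ψ : ℂ) * I) =
      ((1 + exp ((ψ : ℂ) * I)) / 4) ^ 2 := by
    rw [one_add_exp]
    have : exp ((ψ : ℂ) * I) = exp (((ψ / 2 : ℝ) : ℂ) * I) ^ 2 := by
      rw [← exp_nat_mul]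
      congr 1
      push_cast
      ring
    rw [this]
    push_cast
    ring
  set s' := (1 + exp ((ψ : ℂ) * I)) / 4 with hs'def
  have hdiff : ‖sqrtC a - s'‖ ≤ δ / 4 := by
    have h2 : sqrtC a - s' = (w - w / ‖w‖) / 4 := by
      rw [hs'def, he, hw]
      ring
    have h3 : w - w / ‖w‖ = w / ‖w‖ * ((‖w‖ - 1 : ℝ) : ℂ) := by
      have : (‖w‖ : ℂ) ≠ 0 := by exact_mod_cast hw0.ne'
      push_cast
      field_simp
    rw [h2, h3, norm_div, norm_mul, norm_div, norm_real, norm_norm, div_self hw0.ne', norm_real,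
      one_mul, Real.norm_eq_abs]
    norm_num
    linarith
  have hsum : ‖sqrtC a + s'‖ ≤ 2 := by
    have h2 : ‖sqrtC a‖ ≤ 1 := by
      rw [norm_sqrtC]
      exact Real.sqrt_le_one.2 ha1
    have h3 : ‖s'‖ ≤ 1 / 2 := by
      rw [hs'def, norm_div]
      have : ‖1 + exp ((ψ : ℂ) * I)‖ ≤ 1 + 1 := by
        refine (norm_add_le _ _).trans ?_
        rw [norm_one, norm_exp_ofReal_mul_I]
      norm_num at this ⊢
      linarith
    refine (norm_add_le _ _).trans ?_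
    linarith
  rw [hs', show a = sqrtC a ^ 2 from (sqrtC_sq a).symm, sq_sub_sq, norm_mul]
  have h5 : 0 ≤ δ := (abs_nonneg _).trans h1
  calc ‖sqrtC a + s'‖ * ‖sqrtC a - s'‖ ≤ 2 * (δ / 4) := by gcongr
    _ ≤ δ := by linarith

theorem ray_mem_cardioid (ψ : ℝ) :
    (((Real.cos (ψ / 2) / 2) ^ 2 : ℝ) : ℂ) * exp ((ψ : ℂ) * I) ∈ cardioid := by
  obtain ⟨θ, hθ, he⟩ := exists_angle (u := exp ((ψ : ℂ) * I)) (norm_exp_ofReal_mul_I ψ)
  refine ⟨θ, hθ, ?_⟩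
  rw [he, one_add_exp]
  have : exp ((ψ : ℂ) * I) = exp (((ψ / 2 : ℝ) : ℂ) * I) ^ 2 := by
    rw [← exp_nat_mul]
    congr 1
    push_cast
    ring
  rw [this]
  push_cast
  ring

/-- Every point of the cardioid is close to the spine when `n` is large. -/
theorem cardioid_near_spine {ε : ℝ} (hε : 0 < ε) :
    ∃ N : ℕ, ∀ n ≥ N, ∀ ψ : ℝ, -Real.pi < ψ → ψ ≤ Real.pi →
      ∃ a ∈ spine n,
        ‖(((Real.cos (ψ / 2) / 2) ^ 2 : ℝ) : ℂ) * exp ((ψ : ℂ) * I) - a‖ ≤ ε := by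
  set κ := min (1 / 8) (ε / 13) with hκdef
  have hκ : 0 < κ := lt_min (by norm_num) (by positivity)
  have hκ1 : κ ≤ 1 / 8 := min_le_left _ _
  have hκ2 : κ ≤ ε / 13 := min_le_right _ _
  obtain ⟨N, hN⟩ := spine_near hκ hκ1
  refine ⟨N, fun n hn ψ hψ1 hψ2 => ?_⟩
  have hcos0 : 0 ≤ Real.cos (ψ / 2) := Real.cos_nonneg_of_mem_Icc ⟨by linarith, by linarith⟩
  have hcos1 := Real.cos_le_one (ψ / 2)
  rcases le_or_gt (2 * κ) (Real.cos (ψ / 2) / 2) with h | h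
  · obtain ⟨t, ht1, ht2, hmem⟩ := hN n hn ψ hψ1 hψ2 h
    refine ⟨_, hmem, ?_⟩
    rw [← sub_mul, norm_mul, norm_exp_ofReal_mul_I, mul_one, ← ofReal_sub, norm_real,
      Real.norm_eq_abs, sq_sub_sq, abs_mul]
    have h1 : |Real.cos (ψ / 2) / 2 - t| ≤ κ := abs_le.2 ⟨by linarith, by linarith⟩
    have h2 : |Real.cos (ψ / 2) / 2 + t| ≤ 2 := abs_le.2 ⟨by linarith, by linarith⟩
    calc |Real.cos (ψ / 2) / 2 + t| * |Real.cos (ψ / 2) / 2 - t| ≤ 2 * κ := by gcongr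
      _ ≤ ε := by linarith
  · -- direction with `cos (ψ' / 2) / 2 = 2 κ`
    set ψ' := 2 * Real.arccos (4 * κ) with hψ'
    have hc : Real.cos (ψ' / 2) / 2 = 2 * κ := by
      rw [hψ', mul_div_cancel_left₀ _ (two_ne_zero), Real.cos_arccos (by linarith) (by linarith)]
      ring
    have h0 : 0 ≤ Real.arccos (4 * κ) := Real.arccos_nonneg _
    have hpi : Real.arccos (4 * κ) ≤ Real.pi / 2 := Real.arccos_le_pi_div_two.2 (by linarith)
    obtain ⟨t, ht1, ht2, hmem⟩ := hN n hn ψ' (by linarith [Real.pi_pos]) (by linarith)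
      (le_of_eq hc.symm)
    rw [hc] at ht1 ht2
    refine ⟨_, hmem, ?_⟩
    refine (norm_sub_le _ _).trans ?_
    rw [norm_mul, norm_mul, norm_exp_ofReal_mul_I, norm_exp_ofReal_mul_I, mul_one, mul_one,
      norm_real, norm_real, Real.norm_eq_abs, Real.norm_eq_abs, abs_of_nonneg (sq_nonneg _),
      abs_of_nonneg (sq_nonneg _)]
    have h1 : (Real.cos (ψ / 2) / 2) ^ 2 ≤ (2 * κ) ^ 2 := by gcongr
    have h2 : t ^ 2 ≤ (3 * κ) ^ 2 := by
      apply sq_le_sq'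
      · linarith
      · linarith
    nlinarith

/-- **Q1.** For every `ε > 0` there is `N ≥ 3` such that for every `n ≥ N` the boundedness locus
`M_n` lies in the `ε`-neighbourhood of the spine `S_n` and also in the `ε`-neighbourhood of the
limiting cardioid `S_∞`. -/
theorem result : ∀ ε : ℝ, 0 < ε → ∃ N : ℕ, 3 ≤ N ∧ ∀ n : ℕ, N ≤ n →
    boundednessLocus n ⊆ thickening ε (spine n) ∧
    boundednessLocus n ⊆ thickening ε cardioid := by
  intro ε hε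
  set δ := min (1 / 4) (ε / 8) with hδdef
  have hδ : 0 < δ := lt_min (by norm_num) (by positivity)
  have hδ1 : δ ≤ 1 / 4 := min_le_left _ _
  have hδ2 : δ ≤ ε / 8 := min_le_right _ _
  set η := min 1 (ε / 8) with hηdef
  have hη : 0 < η := lt_min (by norm_num) (by positivity)
  have hη1 : η ≤ 1 := min_le_left _ _
  have hη2 : η ≤ ε / 8 := min_le_right _ _
  obtain ⟨N1, hN1⟩ := norm_vMinus_near hη hδ (by linarith)
  obtain ⟨N2, hN2⟩ := cardioid_near_spine (ε := ε / 4) (by positivity)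
  set C := -Real.log η + Real.pi with hC
  have hCpos : 0 < C := by
    have : Real.log η ≤ 0 := Real.log_nonpos hη.le hη1
    linarith [Real.pi_pos]
  obtain ⟨N3, hN3⟩ := exists_nat_gt (C + C / δ)
  -- every point of the boundedness locus is close to a ray point of the cardioid
  have key : ∀ n : ℕ, N1 + N2 + N3 + 3 ≤ n → ∀ a ∈ boundednessLocus n,
      ∃ ψ : ℝ, -Real.pi < ψ ∧ ψ ≤ Real.pi ∧
        ‖a - (((Real.cos (ψ / 2) / 2) ^ 2 : ℝ) : ℂ) * exp ((ψ : ℂ) * I)‖ ≤ ε / 4 := by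
    intro n hn a ha
    rcases le_or_gt η ‖a‖ with h | h
    · obtain ⟨ha1, hv1, hv2⟩ := hN1 n (by omega) a ha h
      have hn3 : (N3 : ℝ) ≤ n := by exact_mod_cast (by omega : N3 ≤ n)
      have hCδ : 0 < C / δ := by positivity
      have hn0 : 0 < n := by omega
      have hn0' : (0 : ℝ) < n := by exact_mod_cast hn0
      have h1 := root_sub_one (n := n) hη h ha1 (by linarith) hn0
      have h2 : C / n ≤ δ := by
        rw [div_le_iff₀ hn0']
        have : C / δ ≤ n := by linarith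
        rwa [div_le_iff₀ hδ, mul_comm] at this
      have h3 : |‖1 - 4 * sqrtC a‖ - 1| ≤ 2 * δ := by
        have h4 : |‖vMinus n a‖ - ‖1 - 4 * sqrtC a‖| ≤ δ := by
          calc |‖vMinus n a‖ - ‖1 - 4 * sqrtC a‖| ≤ ‖vMinus n a - (1 - 4 * sqrtC a)‖ :=
                abs_norm_sub_norm_le _ _
            _ = ‖root n a - 1‖ := by
                rw [vMinus, b]
                congr 1
                ring
            _ ≤ δ := h1.trans h2
        have h5 := abs_le.1 h4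
        exact abs_le.2 ⟨by linarith [h5.1, h5.2], by linarith [h5.1, h5.2]⟩
      obtain ⟨ψ, hψ1, hψ2, hψ3⟩ := near_cardioid ha1 (by linarith) h3
      exact ⟨ψ, hψ1, hψ2, hψ3.trans (by linarith)⟩
    · refine ⟨Real.pi, by linarith [Real.pi_pos], le_rfl, ?_⟩
      rw [Real.cos_pi_div_two]
      norm_num
      linarith
  refine ⟨N1 + N2 + N3 + 3, by omega, fun n hn => ⟨fun a ha => ?_, fun a ha => ?_⟩⟩
  · obtain ⟨ψ, hψ1, hψ2, hψ3⟩ := key n hn a ha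
    obtain ⟨a', ha', hd⟩ := hN2 n (by omega) ψ hψ1 hψ2
    rw [mem_thickening_iff]
    refine ⟨a', ha', ?_⟩
    rw [dist_eq_norm]
    calc ‖a - a'‖ ≤ ‖a - (((Real.cos (ψ / 2) / 2) ^ 2 : ℝ) : ℂ) * exp ((ψ : ℂ) * I)‖ +
          ‖(((Real.cos (ψ / 2) / 2) ^ 2 : ℝ) : ℂ) * exp ((ψ : ℂ) * I) - a'‖ :=
          norm_sub_le_norm_sub_add_norm_sub _ _ _
      _ ≤ ε / 4 + ε / 4 := by gcongr
      _ < ε := by linarith
  · obtain ⟨ψ, hψ1, hψ2, hψ3⟩ := key n hn a ha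
    rw [mem_thickening_iff]
    refine ⟨_, ray_mem_cardioid ψ, ?_⟩
    rw [dist_eq_norm]
    linarith

end Pool.Agent.Results.MP_9ed304_an.NearSpine
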